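import Pool.Agent.H304.TR.Cnt
set_option autoImplicit false
set_option maxRecDepth 100000
namespace Pool.Agent.H304.TR

theorem c10 : cnt 10 cols 16 0 0 [] 0 = 1834 := by decide +kernel

end Pool.Agent.H304.TR
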