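import Pool.Agent.H304.TR.Tree
set_option autoImplicit false

/-!
The two trees with 16 leaves.
-/
namespace Pool.Agent.H304.TR

/-- the parent of a vertex -/
def par' (par : List ℕ) (u : Fin 30) : Fin 30 := ⟨(par.getD u 0) % 30, Nat.mod_lt _ (by norm_num)⟩

/-- the graph in which every vertex is joined to its parent -/
def mkG (par : List ℕ) : SimpleGraph (Fin 30) where
  Adj u w := u ≠ w ∧ (par' par u = w ∨ par' par w = u)
  symm := ⟨fun _ _ h => ⟨h.1.symm, h.2.symm⟩⟩
  loopless := ⟨fun _ h => h.1 rfl⟩

instance (par : List ℕ) : DecidableRel (mkG par).Adj := fun u w =>
  inferInstanceAs (Decidable (u ≠ w ∧ (par' par u = w ∨ par' par w = u)))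

/-- the table of directions: `nxt rows u x` is the neighbour of `u` in the direction of `x` -/
def nxt (rows : List ℕ) (u x : Fin 30) : Fin 30 :=
  ⟨(((rows.getD u 0) >>> (5 * (x : ℕ))) % 32) % 30, Nat.mod_lt _ (by norm_num)⟩

/-- the properties of the tables which are checked -/
structure Good (par rows : List ℕ) : Prop where
  h1 : ∀ u x : Fin 30, u ≠ x → (mkG par).Adj u (nxt rows u x)
  h2 : ∀ u x : Fin 30, x ≠ u → par' par x ≠ u → nxt rows u x = nxt rows u (par' par x)
  h3 : ∀ u x : Fin 30, u ≠ par' par u → (nxt rows u x = par' par u ↔ nxt rows (par' par u) x ≠ u)
  h4 : ∀ u x : Fin 30, (fun y => nxt rows y x)^[13] u = x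
  h5 : ∀ u : Fin 30, nxt rows u u = u
  h6 : ∀ u : Fin 30, u ≠ par' par u →
    nxt rows u (par' par u) = par' par u ∧ nxt rows (par' par u) u = u
  h7 : ∀ j : Fin 30, (j : ℕ) < 16 → ∀ x : Fin 30, x ≠ j → nxt rows j x = nxt rows j
    (if j = 1 then 0 else 1)
  h8 : ∀ v : Fin 30, (Finset.univ.filter (fun w => (mkG par).Adj v w)).card =
    if (v : ℕ) < 16 then 1 else 3

def parT : List ℕ := [0, 19, 26, 19, 24, 18, 29, 16, 27, 29, 25, 28, 28, 21, 21, 25, 0, 16, 17, 18, 17, 20, 20, 22, 23, 24, 23, 26, 27, 22]
def parF : List ℕ := [0, 26, 16, 27, 24, 25, 23, 21, 27, 29, 24, 25, 26, 23, 29, 28, 0, 16, 17, 18, 19, 20, 21, 22, 22, 20, 19, 18, 17, 28]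
def rowsT : List ℕ := [
  736643970428882519255889532619094263939482112,
  874764714884297991616368819985174438428134451,
  1197046451946934093790820490506028178901633882,
  874764714884297991616368819985174438427610739,
  1104965955643323778883834298928641395888251672,
  828724466732492834162875724196481046495709778,
  1335167196402349566151299777872108328694249405,
  736643970428882519255889532619093954701836816,
  1243086700098739251244313586294700679676948347,
  1335167196402349566151299777871404665948534717,
  1151006203795128936337327394700446288802801465,
  1289126948250544408697806681470925412571706268,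
  1289126948250544408697806663636670888184542108,
  966845211187908306523354716414656042067744437,
  966845211187908306523346747421216199541446325,
  1151006203795128936336949605398705215788345145,
  782684218580687676708173702588172682663609888,
  920804963036103067244926740977306631605408336,
  782684218580687757175485181957505523476186737,
  828724466732492873776956981328649843703400498,
  1012885459339670159396859887742335516028754481,
  920804963036143713889061877310574388025381524,
  1326534649872462404828962322944236456479710868,
  1018640402499666471943742494013433944734395094,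
  1058925793891338347449948499753384636752584439,
  1104965998178619644000802221447938111729066776,
  1064679201751417848970579945758209945882036983,
  1199877601239716301806835769617741302463294298,
  1244480496673647415190659550816478771585871739,
  1325095892119142187958348163167874259983489750]
def rowsF : List ℕ := [
  736643970428882519255889532619094263939482112,
  1197046451946934093790820490506028178901657658,
  736643970428882519255889532619094263939467792,
  1243086700098739251244313586294721570397089659,
  1104965955643323778883834298928641395888251672,
  1151006203795128936337327394717334786734352185,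
  1058925707491518621430341203139947986159394551,
  966845211187908306523355011562560740384233141,
  1243086700098739251244313586294700679676948347,
  1335167196402349566151299777871404665948534717,
  1104965955643323778883834298912878797213426456,
  1151006203795128936337327394212931629139945273,
  1197046451946934093790820474365127114405800794,
  1058925707491518621430340834205066530221973239,
  1335167196402349566151282068997797592220759997,
  1289126948250544408697315555969196518791869340,
  782684218580687676708173702588173026260978208,
  1288677336452186936416336030938144700503769680,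
  783122590084086210826313415281535355637843569,
  828735443583038628717675223063263407113849682,
  874764972840284469344887728110995555791523443,
  920804965780272603624725694582310684544619156,
  966845215259967117829293653027956964320794293,
  1012885459381251838845126396338105239598750422,
  1012885461998169455546679853145357934576491222,
  920805175712582474656401580058738301105492628,
  874774242790571777893345786403731995690126387,
  829116472019185755272785531744231448794745426,
  1333233865669412435515984282499938987191879217,
  1333728438647605654980861590345353138078118812]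

theorem goodT : Good parT rowsT := by
  constructor <;> decide +kernel

theorem goodF : Good parF rowsF := by
  constructor <;> decide +kernel

section
variable {par rows : List ℕ} (h : Good par rows)
include h

theorem Good.adj_nxt {u w : Fin 30} (ha : (mkG par).Adj u w) : nxt rows u w = w := by
  obtain ⟨hne, h1 | h1⟩ := ha
  · have := (h.h6 u (by rw [h1]; exact hne)).1
    rwa [h1] at this
  · have := (h.h6 w (by rw [h1]; exact hne.symm)).2
    rwa [h1] at this

theorem Good.side (u x y : Fin 30) (ha : (mkG par).Adj x y) (hx : x ≠ u) (hy : y ≠ u) :
    nxt rows u x = nxt rows u y := by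
  obtain ⟨hne, h1 | h1⟩ := ha
  · have := h.h2 u x hx (by rw [h1]; exact hy)
    rwa [h1] at this
  · have := h.h2 u y hy (by rw [h1]; exact hx)
    rw [h1] at this
    exact this.symm

theorem Good.xor (u w x : Fin 30) (ha : (mkG par).Adj u w) :
    (nxt rows u x = w ↔ nxt rows w x ≠ u) := by
  obtain ⟨hne, h1 | h1⟩ := ha
  · have := h.h3 u x (by rw [h1]; exact hne)
    rwa [h1] at this
  · have := h.h3 w x (by rw [h1]; exact hne.symm)
    rw [h1] at this
    tauto

theorem Good.reach (u x : Fin 30) : (mkG par).Reachable u x := by
  have key : ∀ (k : ℕ) (u : Fin 30), (fun y => nxt rows y x)^[k] u = x →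
      (mkG par).Reachable u x := by
    intro k
    induction k with
    | zero =>
      intro u hu
      simp only [Function.iterate_zero, id_eq] at hu
      subst hu
      exact SimpleGraph.Reachable.refl _
    | succ k ih =>
      intro u hu
      by_cases hux : u = x
      · subst hux; exact SimpleGraph.Reachable.refl _
      · exact (h.h1 u x hux).reachable.trans (ih _ (by simpa [Function.iterate_succ] using hu))
  exact key 13 u (h.h4 u x)

theorem Good.isTree : (mkG par).IsTree := by
  constructor
  · have : Nonempty (Fin 30) := ⟨0⟩
    exact ⟨fun u x => h.reach u x⟩
  · rw [SimpleGraph.isAcyclic_iff_forall_adj_isBridge]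
    intro u w ha
    rw [SimpleGraph.isBridge_iff]
    intro hr
    have key : ∀ x, ((mkG par).deleteEdges {s(u, w)}).Reachable u x → nxt rows u x ≠ w := by
      intro x hx
      rw [SimpleGraph.reachable_iff_reflTransGen] at hx
      induction hx with
      | refl => rw [h.h5]; exact ha.ne
      | @tail y z _ hadj ih =>
        rw [SimpleGraph.deleteEdges_adj] at hadj
        obtain ⟨hadj, hne⟩ := hadj
        by_cases hy : y = u
        · subst hy
          rw [h.adj_nxt hadj]
          rintro rfl
          exact hne rfl
        · by_cases hz : z = u
          · subst hz; rw [h.h5]; exact ha.ne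
          · rw [← h.side u y z hadj hy hz]; exact ih
    exact key w hr (h.adj_nxt ha)

theorem Good.ncard (v : Fin 30) :
    ((mkG par).neighborSet v).ncard = if (v : ℕ) < 16 then 1 else 3 := by
  rw [← h.h8 v, ← Set.ncard_coe_finset]
  congr 1
  ext w
  simp [SimpleGraph.mem_neighborSet]

end

/-- the tree given by the tables -/
def mkTree {par rows : List ℕ} (h : Good par rows) : SLTree 16 where
  V := Fin 30
  finite := inferInstance
  G := mkG par
  isTree := h.isTree
  deg := by
    intro v
    rw [h.ncard]
    split_ifs
    · left; rfl
    · right; rfl
  leaf := fun i => ⟨i, by omega⟩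
  leaf_injective := by
    intro i j hij
    simp only [Fin.mk.injEq] at hij
    exact Fin.ext hij
  leaf_iff := by
    intro v
    rw [h.ncard]
    constructor
    · intro hv
      split_ifs at hv with h1
      · exact ⟨⟨v, h1⟩, rfl⟩
      · omega
    · rintro ⟨i, rfl⟩
      rw [if_pos i.isLt]

/-- the inclusion of the leaves -/
def lf (i : Fin 16) : Fin 30 := ⟨i, by omega⟩

theorem lf_injective : Function.Injective lf := by
  intro i j hij
  simp only [lf, Fin.mk.injEq] at hij
  exact Fin.ext hij

theorem mem_parts {par rows : List ℕ} (h : Good par rows) (s : Setoid (Fin 16)) :
    s ∈ (mkTree h).parts ↔ NC lf (nxt rows) s := by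
  constructor
  · rintro ⟨E, _, rfl⟩
    exact nc_of_cut (G := mkG par) h.side E _ (fun i j => Iff.rfl)
  · intro hs
    refine ⟨drop (mkG par) lf (nxt rows) s, fun e he => he.1, ?_⟩
    ext i j
    exact (cut_of_nc h.h1 h.xor (fun u x => ⟨13, h.h4 u x⟩) h.h5
      (fun j x y hx hy => by
        rw [h.h7 (lf j) j.isLt x hx, h.h7 (lf j) j.isLt y hy])
      lf_injective s hs i j).symm

end Pool.Agent.H304.TR
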