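import Pool.Agent.H304.TR.Cnt
set_option autoImplicit false

/-!
Correctness of the counting program.
-/
namespace Pool.Agent.H304.TR

theorem force_eq {α : Type} (n : ℕ) (f : ℕ → α) : force n f = f n := by
  cases n <;> rfl

/-- the set of vertices separating a leaf and the leaf with column `col` -/
def dcol (col x : ℕ) : ℕ := Nat.mod (Nat.shiftRight col x) 268435456

theorem brec (a b : ℕ) (x : Bool) :
    Bool.rec (motive := fun _ => ℕ) a b x = if x = true then b else a := by
  cases x <;> rfl

theorem loop_nil (col occ : ℕ) (K : List (ℕ × ℕ) → ℕ → ℕ) (pre : List (ℕ × ℕ)) :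
    loop col occ K [] pre = 0 := rfl

theorem loop_cons (col occ : ℕ) (K : List (ℕ × ℕ) → ℕ → ℕ) (c S : ℕ) (t pre : List (ℕ × ℕ)) :
    loop col occ K ((c, S) :: t) pre =
      if Nat.land (Nat.land (dcol col c) occ) S = Nat.land (dcol col c) occ then
        K (pre.reverse ++ ((c, Nat.lor S (dcol col c)) :: t)) (Nat.lor occ (dcol col c)) +
          loop col occ K t ((c, S) :: pre)
      else loop col occ K t ((c, S) :: pre) := by
  have key : loop col occ K ((c, S) :: t) pre =
      force (Nat.mod (Nat.shiftRight col c) 268435456) (fun d =>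
        force (Nat.land d occ) (fun y => Bool.rec (motive := fun _ => ℕ)
          (loop col occ K t ((c, S) :: pre))
          (Nat.add (force (Nat.lor S d) fun S' => force (Nat.lor occ d) fun occ' =>
            K (List.reverseAux pre ((c, S') :: t)) occ') (loop col occ K t ((c, S) :: pre)))
          (Nat.beq (Nat.land y S) y))) := rfl
  rw [key]
  simp only [force_eq, brec, Nat.beq_eq, List.reverseAux_eq]
  rfl

theorem nbig_nil : nbig [] = 0 := rfl

theorem nbig_cons (c S : ℕ) (t : List (ℕ × ℕ)) :
    nbig ((c, S) :: t) = if S = 0 then nbig t else nbig t + 1 := by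
  have key : nbig ((c, S) :: t) =
    Bool.rec (motive := fun _ => ℕ) (Nat.succ (nbig t)) (nbig t) (Nat.beq S 0) := rfl
  rw [key, brec]
  simp only [Nat.beq_eq]

theorem cnt_nil (k rem m nc : ℕ) (cl : List (ℕ × ℕ)) (occ : ℕ) :
    cnt k [] rem m nc cl occ = if nc = k ∧ 2 ≤ nbig cl then 1 else 0 := by
  have key : cnt k [] rem m nc cl occ =
    Bool.rec (motive := fun _ => ℕ) 0 1 (Nat.beq nc k && Nat.ble 2 (nbig cl)) := rfl
  rw [key, brec]
  simp only [Bool.and_eq_true, Nat.beq_eq, Nat.ble_eq]

theorem cnt_cons (k col : ℕ) (cs : List ℕ) (rem m nc : ℕ) (cl : List (ℕ × ℕ)) (occ : ℕ) :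
    cnt k (col :: cs) rem m nc cl occ = if nc ≤ k ∧ k ≤ nc + rem then
      cnt k cs (rem - 1) (m + 28) (nc + 1) ((m, 0) :: cl) occ +
        loop col occ (fun cl' occ' => cnt k cs (rem - 1) (m + 28) nc cl' occ') cl []
      else 0 := by
  have key : cnt k (col :: cs) rem m nc cl occ =
    Bool.rec (motive := fun _ => ℕ) 0
      (Nat.add (cnt k cs (Nat.pred rem) (Nat.add m 28) (Nat.succ nc) ((m, 0) :: cl) occ)
        (loop col occ (fun cl' occ' => cnt k cs (Nat.pred rem) (Nat.add m 28) nc cl' occ') cl []))
     (Nat.ble nc k && Nat.ble k (Nat.add nc rem)) := rfl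
  rw [key, brec]
  simp only [Bool.and_eq_true, Nat.ble_eq]
  rfl

/-! ### Codes -/

/-- the entry of leaf `i` -/
def get : List ℕ → ℕ → ℕ
  | [], i => i
  | x :: t, i => if i = t.length then x else get t i

theorem get_self (x : ℕ) (t : List ℕ) : get (x :: t) t.length = x := by
  simp [get]

theorem get_lt (x : ℕ) (t : List ℕ) {i : ℕ} (h : i < t.length) : get (x :: t) i = get t i := by
  simp [get, h.ne]

/-- all ways of joining, as a list -/
def joinsL (col occ : ℕ) : List (ℕ × ℕ) → List (ℕ × ℕ) → List (ℕ × List (ℕ × ℕ) × ℕ)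
  | [], _ => []
  | (c, S) :: t, pre =>
    if Nat.land (Nat.land (dcol col c) occ) S = Nat.land (dcol col c) occ then
      (c, pre.reverse ++ ((c, Nat.lor S (dcol col c)) :: t), Nat.lor occ (dcol col c)) ::
        joinsL col occ t ((c, S) :: pre)
    else joinsL col occ t ((c, S) :: pre)

theorem loop_eq (col occ : ℕ) (K : List (ℕ × ℕ) → ℕ → ℕ) (l pre : List (ℕ × ℕ)) :
    loop col occ K l pre = ((joinsL col occ l pre).map (fun p => K p.2.1 p.2.2)).sum := by
  induction l generalizing pre with
  | nil => rfl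
  | cons p t ih =>
    obtain ⟨c, S⟩ := p
    rw [loop_cons, joinsL]
    split_ifs with h
    · rw [List.map_cons, List.sum_cons, ih]
    · rw [ih]

theorem mem_joinsL (col occ : ℕ) (l pre : List (ℕ × ℕ)) (p : ℕ × List (ℕ × ℕ) × ℕ) :
    p ∈ joinsL col occ l pre ↔ ∃ l1 c S l2, l = l1 ++ (c, S) :: l2 ∧
      Nat.land (Nat.land (dcol col c) occ) S = Nat.land (dcol col c) occ ∧
      p = (c, pre.reverse ++ l1 ++ (c, Nat.lor S (dcol col c)) :: l2, Nat.lor occ (dcol col c)) := by
  induction l generalizing pre with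
  | nil => simp [joinsL]
  | cons q t ih =>
    obtain ⟨c, S⟩ := q
    have aux : (∃ l1 c' S' l2, (c, S) :: t = l1 ++ (c', S') :: l2 ∧
      Nat.land (Nat.land (dcol col c') occ) S' = Nat.land (dcol col c') occ ∧
      p = (c', pre.reverse ++ l1 ++ (c', Nat.lor S' (dcol col c')) :: l2,
        Nat.lor occ (dcol col c'))) ↔
      (Nat.land (Nat.land (dcol col c) occ) S = Nat.land (dcol col c) occ ∧
       p = (c, pre.reverse ++ ((c, Nat.lor S (dcol col c)) :: t), Nat.lor occ (dcol col c))) ∨
      p ∈ joinsL col occ t ((c, S) :: pre) := by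
      rw [ih]
      constructor
      · rintro ⟨l1, c', S', l2, h1, h2, h3⟩
        cases l1 with
        | nil =>
          simp only [List.nil_append, List.cons.injEq, Prod.mk.injEq] at h1
          obtain ⟨⟨rfl, rfl⟩, rfl⟩ := h1
          left
          exact ⟨h2, by simpa using h3⟩
        | cons a l1 =>
          simp only [List.cons_append, List.cons.injEq] at h1
          obtain ⟨rfl, rfl⟩ := h1
          right
          exact ⟨l1, c', S', l2, rfl, h2, by simpa using h3⟩
      · rintro (⟨h1, h2⟩ | ⟨l1, c', S', l2, h1, h2, h3⟩)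
        · exact ⟨[], c, S, t, rfl, h1, by simpa using h2⟩
        · exact ⟨(c, S) :: l1, c', S', l2, by rw [h1]; rfl, h2, by simpa using h3⟩
    rw [aux, joinsL]
    by_cases h : Nat.land (Nat.land (dcol col c) occ) S = Nat.land (dcol col c) occ
    · rw [if_pos h, List.mem_cons]
      constructor
      · rintro (h2 | h2)
        · exact Or.inl ⟨h, h2⟩
        · exact Or.inr h2
      · rintro (⟨_, h2⟩ | h2)
        · exact Or.inl h2
        · exact Or.inr h2
    · rw [if_neg h]
      constructor
      · intro h2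
        exact Or.inr h2
      · rintro (⟨h1, _⟩ | h2)
        · exact absurd h1 h
        · exact h2

/-- the list of all codes -/
noncomputable def enum (k : ℕ) : List ℕ → List ℕ → List (ℕ × ℕ) → ℕ → List (List ℕ)
  | [], t, cl, _ => if cl.length = k ∧ 2 ≤ nbig cl then [t] else []
  | col :: cs, t, cl, occ =>
    if cl.length ≤ k ∧ k ≤ cl.length + (cs.length + 1) then
      enum k cs (t.length :: t) ((28 * t.length, 0) :: cl) occ ++
        (joinsL col occ cl []).flatMap (fun p => enum k cs ((p.1 / 28) :: t) p.2.1 p.2.2)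
    else []

theorem length_joinsL (col occ : ℕ) (l pre : List (ℕ × ℕ)) (p : ℕ × List (ℕ × ℕ) × ℕ)
    (hp : p ∈ joinsL col occ l pre) : p.2.1.length = pre.length + l.length := by
  rw [mem_joinsL] at hp
  obtain ⟨l1, c, S, l2, rfl, _, rfl⟩ := hp
  simp

theorem length_enum (k : ℕ) (cs t : List ℕ) (cl : List (ℕ × ℕ)) (occ : ℕ) :
    (enum k cs t cl occ).length = cnt k cs cs.length (28 * t.length) cl.length cl occ := by
  induction cs generalizing t cl occ with
  | nil =>
    rw [enum, cnt_nil]
    split_ifs <;> rfl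
  | cons col cs ih =>
    rw [enum, cnt_cons, List.length_cons]
    split_ifs with h
    · rw [List.length_append, ih, List.length_flatMap, loop_eq]
      congr 1
      congr 1
      apply List.map_congr_left
      intro p hp
      have hl := length_joinsL col occ cl [] p hp
      rw [ih]
      simp only [List.length_cons, List.length_nil, zero_add] at hl ⊢
      rw [hl]
      rfl
    · rfl

end Pool.Agent.H304.TR
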