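import Pool.Agent.H304.TR.Sem
set_option autoImplicit false

/-!
Correctness of the counting program, continued: the list of all codes.
-/
namespace Pool.Agent.H304.TR

/-- number of classes of a code -/
def numCl (t : List ℕ) : ℕ := ((Finset.range t.length).filter (fun i => get t i = i)).card

/-- number of classes with at least two leaves of a code -/
noncomputable def numBig (t : List ℕ) : ℕ := by
  classical
  exact ((Finset.range t.length).filter
    (fun i => get t i = i ∧ ∃ j, j < t.length ∧ j ≠ i ∧ get t j = i)).card

variable {d : ℕ → ℕ → ℕ}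

theorem length_of_rep (t : List ℕ) (cl : List (ℕ × ℕ)) (occ : ℕ) (hR : Rep d t cl occ) :
    cl.length = numCl t := by
  obtain ⟨R1, R2, R3, R4⟩ := hR
  have h1 : (cl.map Prod.fst).toFinset =
      ((Finset.range t.length).filter (fun i => get t i = i)).image (fun c => 28 * c) := by
    ext x
    rw [List.mem_toFinset, R2, Finset.mem_image]
    constructor
    · rintro ⟨c, h1, h2, h3⟩
      exact ⟨c, by rw [Finset.mem_filter, Finset.mem_range]; exact ⟨h2, h3⟩, h1.symm⟩
    · rintro ⟨c, h1, h2⟩
      rw [Finset.mem_filter, Finset.mem_range] at h1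
      exact ⟨c, h2.symm, h1.1, h1.2⟩
  have h2 := congrArg Finset.card h1
  rw [List.toFinset_card_of_nodup R1, List.length_map,
    Finset.card_image_of_injective _ (fun a b h => by simpa using h)] at h2
  exact h2

theorem nbig_eq (cl : List (ℕ × ℕ)) :
    nbig cl = (cl.filter (fun p => decide (p.2 ≠ 0))).length := by
  induction cl with
  | nil => rfl
  | cons p t ih =>
    obtain ⟨c, S⟩ := p
    rw [nbig_cons, List.filter_cons]
    by_cases h : S = 0
    · simp [h, ih]
    · simp [h, ih]

theorem nbig_of_rep (t : List ℕ) (cl : List (ℕ × ℕ)) (occ : ℕ) (hR : Rep d t cl occ)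
    (hd0 : ∀ c, c < t.length → d c c = 0)
    (hd1 : ∀ c j, c < t.length → j < t.length → j ≠ c → d c j ≠ 0) :
    nbig cl = numBig t := by
  classical
  obtain ⟨R1, R2, R3, R4⟩ := hR
  rw [nbig_eq]
  have hnd : ((cl.filter (fun p => decide (p.2 ≠ 0))).map Prod.fst).Nodup :=
    R1.sublist (List.filter_sublist.map Prod.fst)
  have h1 : ((cl.filter (fun p => decide (p.2 ≠ 0))).map Prod.fst).toFinset =
      ((Finset.range t.length).filter (fun i => get t i = i ∧
        ∃ j, j < t.length ∧ j ≠ i ∧ get t j = i)).image (fun c => 28 * c) := by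
    ext x
    rw [List.mem_toFinset, List.mem_map, Finset.mem_image]
    constructor
    · rintro ⟨⟨x', S⟩, hp, rfl⟩
      rw [List.mem_filter] at hp
      obtain ⟨hp1, hp2⟩ := hp
      have hS : S ≠ 0 := by simpa using hp2
      obtain ⟨c, e1, e2, e3⟩ := (R2 x').1 (List.mem_map.2 ⟨_, hp1, rfl⟩)
      subst e1
      refine ⟨c, ?_, rfl⟩
      rw [Finset.mem_filter, Finset.mem_range]
      refine ⟨e2, e3, ?_⟩
      obtain ⟨v, hv⟩ := Nat.exists_testBit_of_ne_zero hS
      obtain ⟨j, j1, j2, j3⟩ := (R3 c S hp1 v).1 hv
      refine ⟨j, j1, ?_, j2⟩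
      rintro rfl
      rw [hd0 j j1] at j3
      simp at j3
    · rintro ⟨c, hc, rfl⟩
      rw [Finset.mem_filter, Finset.mem_range] at hc
      obtain ⟨e2, e3, j, j1, j2, j3⟩ := hc
      have hmem : 28 * c ∈ cl.map Prod.fst := (R2 _).2 ⟨c, rfl, e2, e3⟩
      obtain ⟨⟨x', S⟩, hp, hx⟩ := List.mem_map.1 hmem
      simp only at hx
      subst hx
      refine ⟨(28 * c, S), ?_, rfl⟩
      rw [List.mem_filter]
      refine ⟨hp, ?_⟩
      have hS : S ≠ 0 := by
        obtain ⟨v, hv⟩ := Nat.exists_testBit_of_ne_zero (hd1 c j e2 j1 j2)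
        intro h0
        have := (R3 c S hp v).2 ⟨j, j1, j3, hv⟩
        rw [h0] at this
        simp at this
      simpa using hS
  have h2 := congrArg Finset.card h1
  rw [List.toFinset_card_of_nodup hnd, List.length_map,
    Finset.card_image_of_injective _ (fun a b h => by simpa using h)] at h2
  rw [h2]
  unfold numBig
  congr

theorem numCl_cons (x : ℕ) (t : List ℕ) :
    numCl (x :: t) = numCl t + if x = t.length then 1 else 0 := by
  unfold numCl
  rw [List.length_cons, Finset.range_add_one, Finset.filter_insert, get_self]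
  have h : (Finset.range t.length).filter (fun i => get (x :: t) i = i) =
      (Finset.range t.length).filter (fun i => get t i = i) := by
    apply Finset.filter_congr
    intro i hi
    rw [Finset.mem_range] at hi
    rw [get_lt _ _ hi]
  split_ifs with hx
  · rw [Finset.card_insert_of_notMem (by simp), h]
  · rw [h, add_zero]

theorem numCl_append (l t : List ℕ) :
    numCl t ≤ numCl (l ++ t) ∧ numCl (l ++ t) ≤ numCl t + l.length := by
  induction l with
  | nil => simp
  | cons x l ih =>
    rw [List.cons_append, numCl_cons, List.length_cons]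
    split_ifs <;> omega

theorem sem_suffix (hd : ∀ m, m < 16 → d m m = 0) (l t : List ℕ) (hl : l.length + t.length ≤ 16)
    (h : Sem d (l ++ t)) : Sem d t := by
  induction l with
  | nil => exact h
  | cons x l ih =>
    rw [List.cons_append, sem_cons] at h
    · exact ih (by simp at hl; omega) h.1
    · apply hd
      simp at hl ⊢
      omega

theorem mem_enum (k : ℕ) (hd : ∀ m, m < 16 → d m m = 0)
    (hd1 : ∀ c j, c < 16 → j < 16 → j ≠ c → d c j ≠ 0) (cs : List ℕ) :
    ∀ (t : List ℕ) (cl : List (ℕ × ℕ)) (occ : ℕ), t.length + cs.length ≤ 16 → Sem d t →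
      Rep d t cl occ →
      (∀ i (h : i < cs.length) c, c < 16 → dcol cs[i] (28 * c) = d c (t.length + i)) →
      ∀ L, L ∈ enum k cs t cl occ ↔ ∃ l, l.length = cs.length ∧ L = l ++ t ∧ Sem d L ∧
        numCl L = k ∧ 2 ≤ numBig L := by
  induction cs with
  | nil =>
    intro t cl occ hlen hS hR _ L
    rw [enum, length_of_rep t cl occ hR, nbig_of_rep t cl occ hR
      (fun c hc => hd c (by simp at hlen; omega))
      (fun c j hc hj => hd1 c j (by simp at hlen; omega) (by simp at hlen; omega))]
    constructor
    · intro h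
      split_ifs at h with h1
      · rw [List.mem_singleton] at h
        subst h
        exact ⟨[], rfl, rfl, hS, h1⟩
      · simp at h
    · rintro ⟨l, h1, h2, h3, h4⟩
      have hl : l = [] := List.eq_nil_of_length_eq_zero (by simpa using h1)
      subst hl
      simp only [List.nil_append] at h2
      subst h2
      rw [if_pos h4]
      simp
  | cons col cs ih =>
    intro t cl occ hlen hS hR hcs L
    simp only [List.length_cons] at hlen
    have hdm : d t.length t.length = 0 := hd _ (by omega)
    have hcol : ∀ c, c < 16 → dcol col (28 * c) = d c t.length := by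
      intro c hc
      have := hcs 0 (by simp) c hc
      simpa using this
    have hcs' : ∀ x, ∀ i (h : i < cs.length) c, c < 16 →
        dcol cs[i] (28 * c) = d c ((x :: t).length + i) := by
      intro x i h c hc
      have := hcs (i + 1) (by simp; omega) c hc
      rw [List.getElem_cons_succ] at this
      rw [this]
      congr 1
      simp
      omega
    have hnew := ih (t.length :: t) ((28 * t.length, 0) :: cl) occ (by simp; omega)
      ((sem_cons _ _ hdm).2 ⟨hS, Or.inl rfl⟩) (rep_new t cl occ hdm hS hR) (hcs' _)
    have hjoin : ∀ p ∈ joinsL col occ cl [], ∃ c, p.1 = 28 * c ∧ c < t.length ∧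
        Sem d (c :: t) ∧ Rep d (c :: t) p.2.1 p.2.2 := by
      intro p hp
      rw [mem_joinsL] at hp
      obtain ⟨l1, x, S, l2, e1, e2, e3⟩ := hp
      subst e1
      obtain ⟨c, c1, c2, c3⟩ := (hR.R2 x).1 (by simp)
      subst c1
      rw [hcol c (by omega)] at e2 e3
      refine ⟨c, by rw [e3], c2, ?_, ?_⟩
      · rw [sem_cons _ _ hdm]
        refine ⟨hS, Or.inr ⟨c2, c3, ?_⟩⟩
        exact (cond_iff t _ occ c S _ hS hR (by simp)).1 e2
      · rw [e3]
        have := rep_join t l1 l2 occ c S hR
        simpa using this
    constructor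
    · intro h
      rw [enum] at h
      split_ifs at h with h1
      · rw [List.mem_append] at h
        rcases h with h | h
        · obtain ⟨l, l1, l2, l3⟩ := (hnew L).1 h
          exact ⟨l ++ [t.length], by simp [l1], by rw [l2]; simp, l3⟩
        · rw [List.mem_flatMap] at h
          obtain ⟨p, hp, hL⟩ := h
          obtain ⟨c, p1, p2, p3, p4⟩ := hjoin p hp
          have hc : p.1 / 28 = c := by rw [p1]; simp
          rw [hc] at hL
          obtain ⟨l, l1, l2, l3⟩ := (ih (c :: t) _ _ (by simp; omega) p3 p4 (hcs' _) L).1 hL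
          exact ⟨l ++ [c], by simp [l1], by rw [l2]; simp, l3⟩
      · simp at h
    · rintro ⟨l, l1, l2, l3, l4, l5⟩
      have hln : l ≠ [] := by
        rintro rfl
        simp at l1
      obtain ⟨l', x, rfl⟩ : ∃ l' x, l = l' ++ [x] :=
        ⟨l.dropLast, l.getLast hln, (List.dropLast_append_getLast hln).symm⟩
      have l1' : l'.length = cs.length := by simpa using l1
      have hL : L = l' ++ (x :: t) := by rw [l2]; simp
      have hSx : Sem d (x :: t) := by
        apply sem_suffix hd l'
        · simp; omega
        · rw [← hL]; exact l3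
      have hcount := numCl_append (l' ++ [x]) t
      rw [← l2, l4] at hcount
      have hlr := length_of_rep t cl occ hR
      rw [enum, if_pos (by
        rw [hlr]
        refine ⟨hcount.1, ?_⟩
        have := hcount.2
        simp only [List.length_append, List.length_cons, List.length_nil] at this
        omega), List.mem_append]
      rcases ((sem_cons _ _ hdm).1 hSx).2 with hx | ⟨hx1, hx2, hx3⟩
      · left
        rw [hnew]
        exact ⟨l', l1', by rw [hL, hx], l3, l4, l5⟩
      · right
        have hmem : 28 * x ∈ cl.map Prod.fst := (hR.R2 _).2 ⟨x, rfl, hx1, hx2⟩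
        obtain ⟨⟨x', S⟩, hp, hx'⟩ := List.mem_map.1 hmem
        simp only at hx'
        subst hx'
        obtain ⟨a1, a2, ha⟩ := List.append_of_mem hp
        have hcond := (cond_iff t cl occ x S (d x t.length) hS hR hp).2 hx3
        rw [List.mem_flatMap]
        refine ⟨(28 * x, a1 ++ (28 * x, Nat.lor S (d x t.length)) :: a2,
          Nat.lor occ (d x t.length)), ?_, ?_⟩
        · rw [mem_joinsL]
          refine ⟨a1, 28 * x, S, a2, ha, ?_, ?_⟩
          · rw [hcol x (by omega)]; exact hcond
          · rw [hcol x (by omega)]; simp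
        · have hc : (28 * x) / 28 = x := by simp
          simp only [hc]
          subst ha
          rw [ih (x :: t) _ _ (by simp; omega) hSx (rep_join t a1 a2 occ x S hR) (hcs' _)]
          exact ⟨l', l1', hL, l3, l4, l5⟩

theorem suffix_of_mem_enum (k : ℕ) (cs : List ℕ) :
    ∀ (t : List ℕ) (cl : List (ℕ × ℕ)) (occ : ℕ) (L : List ℕ), L ∈ enum k cs t cl occ →
      ∃ l, l.length = cs.length ∧ L = l ++ t := by
  induction cs with
  | nil =>
    intro t cl occ L h
    rw [enum] at h
    split_ifs at h
    · rw [List.mem_singleton] at h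
      exact ⟨[], rfl, h⟩
    · simp at h
  | cons col cs ih =>
    intro t cl occ L h
    rw [enum] at h
    split_ifs at h
    · rw [List.mem_append, List.mem_flatMap] at h
      rcases h with h | ⟨p, _, h⟩
      · obtain ⟨l, l1, l2⟩ := ih _ _ _ _ h
        exact ⟨l ++ [t.length], by simp [l1], by rw [l2]; simp⟩
      · obtain ⟨l, l1, l2⟩ := ih _ _ _ _ h
        exact ⟨l ++ [p.1 / 28], by simp [l1], by rw [l2]; simp⟩
    · simp at h

theorem disj_aux (k k' : ℕ) (cs t : List ℕ) (x y : ℕ) (cl cl' : List (ℕ × ℕ)) (occ occ' : ℕ)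
    (hxy : x ≠ y) : List.Disjoint (enum k cs (x :: t) cl occ) (enum k' cs (y :: t) cl' occ') := by
  intro L h1 h2
  obtain ⟨l, l1, l2⟩ := suffix_of_mem_enum _ _ _ _ _ _ h1
  obtain ⟨l', l1', l2'⟩ := suffix_of_mem_enum _ _ _ _ _ _ h2
  rw [l2] at l2'
  have := (List.append_inj' l2' (by simp)).2
  simp only [List.cons.injEq] at this
  exact hxy this.1

theorem nodup_enum (k : ℕ) (hd : ∀ m, m < 16 → d m m = 0) (cs : List ℕ) :
    ∀ (t : List ℕ) (cl : List (ℕ × ℕ)) (occ : ℕ), t.length + cs.length ≤ 16 → Sem d t →
      Rep d t cl occ →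
      (∀ i (h : i < cs.length) c, c < 16 → dcol cs[i] (28 * c) = d c (t.length + i)) →
      (enum k cs t cl occ).Nodup := by
  induction cs with
  | nil =>
    intro t cl occ _ _ _ _
    rw [enum]
    split_ifs <;> simp
  | cons col cs ih =>
    intro t cl occ hlen hS hR hcs
    simp only [List.length_cons] at hlen
    have hdm : d t.length t.length = 0 := hd _ (by omega)
    have hcol : ∀ c, c < 16 → dcol col (28 * c) = d c t.length := by
      intro c hc
      have := hcs 0 (by simp) c hc
      simpa using this
    have hcs' : ∀ x, ∀ i (h : i < cs.length) c, c < 16 →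
        dcol cs[i] (28 * c) = d c ((x :: t).length + i) := by
      intro x i h c hc
      have := hcs (i + 1) (by simp; omega) c hc
      rw [List.getElem_cons_succ] at this
      rw [this]
      congr 1
      simp
      omega
    have hjoin : ∀ p ∈ joinsL col occ cl [], ∃ c, p.1 = 28 * c ∧ c < t.length ∧
        Sem d (c :: t) ∧ Rep d (c :: t) p.2.1 p.2.2 := by
      intro p hp
      rw [mem_joinsL] at hp
      obtain ⟨l1, x, S, l2, e1, e2, e3⟩ := hp
      subst e1
      obtain ⟨c, c1, c2, c3⟩ := (hR.R2 x).1 (by simp)
      subst c1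
      rw [hcol c (by omega)] at e2 e3
      refine ⟨c, by rw [e3], c2, ?_, ?_⟩
      · rw [sem_cons _ _ hdm]
        refine ⟨hS, Or.inr ⟨c2, c3, ?_⟩⟩
        exact (cond_iff t _ occ c S _ hS hR (by simp)).1 e2
      · rw [e3]
        have := rep_join t l1 l2 occ c S hR
        simpa using this
    have hkeys : ∀ (l pre : List (ℕ × ℕ)), (l.map Prod.fst).Nodup →
        ((joinsL col occ l pre).map Prod.fst).Nodup ∧
        ∀ x ∈ (joinsL col occ l pre).map Prod.fst, x ∈ l.map Prod.fst := by
      intro l
      induction l with
      | nil => intro pre _; simp [joinsL]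
      | cons q l ihl =>
        obtain ⟨c, S⟩ := q
        intro pre hnd
        rw [List.map_cons, List.nodup_cons] at hnd
        have := ihl ((c, S) :: pre) hnd.2
        rw [joinsL]
        split_ifs with hcond
        · refine ⟨?_, ?_⟩
          · rw [List.map_cons, List.nodup_cons]
            exact ⟨fun h => hnd.1 (this.2 _ h), this.1⟩
          · intro x hx
            rw [List.map_cons, List.mem_cons] at hx
            rw [List.map_cons, List.mem_cons]
            rcases hx with hx | hx
            · exact Or.inl hx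
            · exact Or.inr (this.2 _ hx)
        · refine ⟨this.1, ?_⟩
          intro x hx
          rw [List.map_cons, List.mem_cons]
          exact Or.inr (this.2 _ hx)
    rw [enum]
    split_ifs with h1
    · rw [List.nodup_append']
      refine ⟨?_, ?_, ?_⟩
      · exact ih _ _ _ (by simp; omega) ((sem_cons _ _ hdm).2 ⟨hS, Or.inl rfl⟩)
          (rep_new t cl occ hdm hS hR) (hcs' _)
      · rw [List.nodup_flatMap]
        refine ⟨?_, ?_⟩
        · intro p hp
          obtain ⟨c, p1, p2, p3, p4⟩ := hjoin p hp
          have hc : p.1 / 28 = c := by rw [p1]; simp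
          rw [hc]
          exact ih _ _ _ (by simp; omega) p3 p4 (hcs' _)
        · have hpw := (hkeys cl [] hR.R1).1
          rw [List.Nodup, List.pairwise_map] at hpw
          refine (List.Pairwise.and_mem.1 hpw).imp ?_
          rintro p q ⟨hp, hq, hne⟩
          obtain ⟨c, p1, p2, p3, p4⟩ := hjoin p hp
          obtain ⟨c', q1, q2, q3, q4⟩ := hjoin q hq
          apply disj_aux
          rw [p1, q1]
          intro h
          apply hne
          rw [p1, q1]
          have e1 : 28 * c / 28 = c := by simp
          have e2 : 28 * c' / 28 = c' := by simp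
          rw [e1, e2] at h
          rw [h]
      · intro L hL hL'
        rw [List.mem_flatMap] at hL'
        obtain ⟨p, hp, hL'⟩ := hL'
        obtain ⟨c, p1, p2, p3, p4⟩ := hjoin p hp
        have hc : p.1 / 28 = c := by rw [p1]; simp
        rw [hc] at hL'
        exact disj_aux k k cs t t.length c _ _ _ _ (by omega) hL hL'
    · simp

end Pool.Agent.H304.TR
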