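import Pool.Agent.H304.TR.Conc
import Pool.Agent.H304.TR.Mem
set_option autoImplicit false

/-!
The number of common partitions of the two trees is computed by the counting program.
-/
namespace Pool.Agent.H304.TR

/-- the set of internal vertices of the two trees which separate the leaves `i` and `j` -/
def D (i j : ℕ) : ℕ := dcol (cols.getD j 0) (28 * i)

theorem D_self : ∀ m, m < 16 → D m m = 0 := by decide +kernel

theorem D_ne : ∀ c, c < 16 → ∀ j, j < 16 → j ≠ c → D c j ≠ 0 := by decide +kernel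

theorem D_symm : ∀ c, c < 16 → ∀ j, j < 16 → D c j = D j c := by decide +kernel

theorem bitT : ∀ v : Fin 14, ∀ i j : Fin 16, (D i j).testBit v = true ↔
    nxt rowsT ⟨16 + v, by omega⟩ (lf i) ≠ nxt rowsT ⟨16 + v, by omega⟩ (lf j) := by
  decide +kernel

theorem bitF : ∀ v : Fin 14, ∀ i j : Fin 16, (D i j).testBit (14 + v) = true ↔
    nxt rowsF ⟨16 + v, by omega⟩ (lf i) ≠ nxt rowsF ⟨16 + v, by omega⟩ (lf j) := by
  decide +kernel

theorem D_lt (i j : ℕ) : D i j < 2 ^ 28 := Nat.mod_lt _ (by norm_num)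

theorem D_bit_lt (i j v : ℕ) (h : (D i j).testBit v = true) : v < 28 := by
  by_contra hv
  rw [Nat.testBit_lt_two_pow (lt_of_lt_of_le (D_lt i j)
    (Nat.pow_le_pow_right (by norm_num) (by omega)))] at h
  exact Bool.noConfusion h

/-- the condition on common partitions, in terms of `D` -/
def NB (s : Setoid (Fin 16)) : Prop :=
  ∀ (v : ℕ) (i j i' j' : Fin 16), s i j → (D i j).testBit v = true → s i' j' →
    (D i' j').testBit v = true → s i i'

theorem leafcase {par rows : List ℕ} (h : Good par rows) (s : Setoid (Fin 16)) (u : Fin 30)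
    (hu : (u : ℕ) < 16) (i j : Fin 16) (hij : s i j)
    (hne : nxt rows u (lf i) ≠ nxt rows u (lf j)) : s i ⟨u, hu⟩ := by
  by_cases h1 : lf i = u
  · have : i = ⟨u, hu⟩ := by apply lf_injective; rw [h1]; rfl
    rw [← this]
  · by_cases h2 : lf j = u
    · have : j = ⟨u, hu⟩ := by apply lf_injective; rw [h2]; rfl
      rw [← this]; exact hij
    · exfalso
      apply hne
      rw [h.h7 u hu _ h1, h.h7 u hu _ h2]

theorem nb_iff (s : Setoid (Fin 16)) :
    (NC lf (nxt rowsT) s ∧ NC lf (nxt rowsF) s) ↔ NB s := by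
  constructor
  · rintro ⟨hT, hF⟩ v i j i' j' h1 h2 h3 h4
    have hv := D_bit_lt _ _ _ h2
    by_cases hv' : v < 14
    · exact hT _ i j i' j' h1 ((bitT ⟨v, hv'⟩ i j).1 h2) h3 ((bitT ⟨v, hv'⟩ i' j').1 h4)
    · have e : 14 + ((⟨v - 14, by omega⟩ : Fin 14) : ℕ) = v := by simp; omega
      refine hF _ i j i' j' h1 ((bitF ⟨v - 14, by omega⟩ i j).1 (by rw [e]; exact h2)) h3
        ((bitF ⟨v - 14, by omega⟩ i' j').1 (by rw [e]; exact h4))
  · intro h
    constructor
    · intro u i j i' j' h1 h2 h3 h4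
      by_cases hu : (u : ℕ) < 16
      · exact s.trans (leafcase goodT s u hu i j h1 h2)
          (s.symm (leafcase goodT s u hu i' j' h3 h4))
      · have e : u = ⟨16 + ((⟨u - 16, by omega⟩ : Fin 14) : ℕ), by simp; omega⟩ := by
          ext; simp; omega
        rw [e] at h2 h4
        exact h _ i j i' j' h1 ((bitT _ i j).2 h2) h3 ((bitT _ i' j').2 h4)
    · intro u i j i' j' h1 h2 h3 h4
      by_cases hu : (u : ℕ) < 16
      · exact s.trans (leafcase goodF s u hu i j h1 h2)
          (s.symm (leafcase goodF s u hu i' j' h3 h4))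
      · have e : u = ⟨16 + ((⟨u - 16, by omega⟩ : Fin 14) : ℕ), by simp; omega⟩ := by
          ext; simp; omega
        rw [e] at h2 h4
        exact h _ i j i' j' h1 ((bitF _ i j).2 h2) h3 ((bitF _ i' j').2 h4)

/-! ### The code of a partition -/

/-- the list of the values `f (n-1), …, f 0` -/
def mk : ℕ → (ℕ → ℕ) → List ℕ
  | 0, _ => []
  | n + 1, f => f n :: mk n f

theorem length_mk (n : ℕ) (f : ℕ → ℕ) : (mk n f).length = n := by
  induction n with
  | zero => rfl
  | succ n ih => simp [mk, ih]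

theorem get_mk (n : ℕ) (f : ℕ → ℕ) (i : ℕ) (h : i < n) : get (mk n f) i = f i := by
  induction n with
  | zero => omega
  | succ n ih =>
    rw [mk, get, length_mk]
    split_ifs with hi
    · rw [hi]
    · exact ih (by omega)

theorem eq_mk (L : List ℕ) (f : ℕ → ℕ) (h : ∀ i, i < L.length → get L i = f i) :
    L = mk L.length f := by
  induction L with
  | nil => rfl
  | cons x t ih =>
    rw [List.length_cons, mk]
    have h1 := h t.length (by simp)
    rw [get_self] at h1
    rw [← h1]
    congr 1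
    apply ih
    intro i hi
    have := h i (by simp; omega)
    rwa [get_lt _ _ hi] at this

open Classical in
/-- the least element of the class of `i` -/
noncomputable def rp (s : Setoid (Fin 16)) (i : ℕ) : ℕ :=
  if h : i < 16 then ((Finset.univ.filter (fun j : Fin 16 => s j ⟨i, h⟩)).min'
    ⟨⟨i, h⟩, by simp only [Finset.mem_filter, Finset.mem_univ, true_and]; exact s.refl _⟩ : Fin 16)
  else i

theorem rp_le (s : Setoid (Fin 16)) (i : ℕ) (h : i < 16) : rp s i ≤ i := by
  classical
  rw [rp, dif_pos h]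
  have := Finset.min'_le (Finset.univ.filter (fun j : Fin 16 => s j ⟨i, h⟩)) ⟨i, h⟩
    (by simp only [Finset.mem_filter, Finset.mem_univ, true_and]; exact s.refl _)
  exact this

theorem rp_lt (s : Setoid (Fin 16)) (i : ℕ) (h : i < 16) : rp s i < 16 :=
  lt_of_le_of_lt (rp_le s i h) h

theorem rp_rel (s : Setoid (Fin 16)) (i : ℕ) (h : i < 16) :
    s ⟨rp s i, rp_lt s i h⟩ ⟨i, h⟩ := by
  classical
  have hm := Finset.min'_mem (Finset.univ.filter (fun j : Fin 16 => s j ⟨i, h⟩))
    ⟨⟨i, h⟩, by simp only [Finset.mem_filter, Finset.mem_univ, true_and]; exact s.refl _⟩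
  rw [Finset.mem_filter] at hm
  convert hm.2 using 1
  apply Fin.ext
  show rp s i = _
  rw [rp, dif_pos h]

theorem rp_min (s : Setoid (Fin 16)) (i j : ℕ) (hi : i < 16) (hj : j < 16)
    (h : s ⟨j, hj⟩ ⟨i, hi⟩) : rp s i ≤ j := by
  classical
  rw [rp, dif_pos hi]
  have := Finset.min'_le (Finset.univ.filter (fun j : Fin 16 => s j ⟨i, hi⟩)) ⟨j, hj⟩
    (by simp only [Finset.mem_filter, Finset.mem_univ, true_and]; exact h)
  exact this

theorem rp_eq (s : Setoid (Fin 16)) (i j : ℕ) (hi : i < 16) (hj : j < 16) :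
    s ⟨i, hi⟩ ⟨j, hj⟩ ↔ rp s i = rp s j := by
  constructor
  · intro h
    apply le_antisymm
    · exact rp_min s i _ hi (rp_lt s j hj) (s.trans (rp_rel s j hj) (s.symm h))
    · exact rp_min s j _ hj (rp_lt s i hi) (s.trans (rp_rel s i hi) h)
  · intro h
    have h1 := rp_rel s i hi
    have h2 := rp_rel s j hj
    have e : (⟨rp s i, rp_lt s i hi⟩ : Fin 16) = ⟨rp s j, rp_lt s j hj⟩ := by
      ext; exact h
    rw [e] at h1
    exact s.trans (s.symm h1) h2

theorem rp_idem (s : Setoid (Fin 16)) (i : ℕ) (h : i < 16) : rp s (rp s i) = rp s i :=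
  (rp_eq s _ _ (rp_lt s i h) h).1 (rp_rel s i h)

/-- the code of a partition -/
noncomputable def code (s : Setoid (Fin 16)) : List ℕ := mk 16 (rp s)

theorem length_code (s : Setoid (Fin 16)) : (code s).length = 16 := length_mk _ _

theorem get_code (s : Setoid (Fin 16)) (i : ℕ) (h : i < 16) : get (code s) i = rp s i :=
  get_mk _ _ _ h

theorem code_injective : Function.Injective code := by
  intro s s' h
  ext i j
  rw [show (s i j ↔ rp s i = rp s j) from rp_eq s i j i.isLt j.isLt,
    show (s' i j ↔ rp s' i = rp s' j) from rp_eq s' i j i.isLt j.isLt,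
    ← get_code s i i.isLt, ← get_code s j j.isLt, ← get_code s' i i.isLt,
    ← get_code s' j j.isLt, h]

theorem sem_code (s : Setoid (Fin 16)) : Sem D (code s) ↔ NB s := by
  constructor
  · rintro ⟨_, _, h3⟩
    rw [length_code] at h3
    -- a vertex separating two elements of a class separates the least element from some element
    have key : ∀ (v : ℕ) (i j : Fin 16), s i j → (D i j).testBit v = true →
        ∃ e : ℕ, e < 16 ∧ rp s e = rp s i ∧ (D (rp s e) e).testBit v = true := by
      intro v i j hij hv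
      have hij' : rp s i = rp s j := (rp_eq s i j i.isLt j.isLt).1 hij
      by_contra hc
      push Not at hc
      have h1 := hc i i.isLt rfl
      have h2 := hc j j.isLt hij'.symm
      have hlt := rp_lt s i i.isLt
      have hv28 := D_bit_lt _ _ _ hv
      rw [← hij'] at h2
      by_cases hv' : v < 14
      · have b1 := (bitT ⟨v, hv'⟩ ⟨rp s i, hlt⟩ i).not.1 h1
        have b2 := (bitT ⟨v, hv'⟩ ⟨rp s i, hlt⟩ j).not.1 h2
        have b3 := (bitT ⟨v, hv'⟩ i j).1 hv
        push Not at b1 b2
        exact b3 (b1.symm.trans b2)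
      · have e : 14 + ((⟨v - 14, by omega⟩ : Fin 14) : ℕ) = v := by simp; omega
        have b1 := (bitF ⟨v - 14, by omega⟩ ⟨rp s i, hlt⟩ i).not.1 (by rw [e]; exact h1)
        have b2 := (bitF ⟨v - 14, by omega⟩ ⟨rp s i, hlt⟩ j).not.1 (by rw [e]; exact h2)
        have b3 := (bitF ⟨v - 14, by omega⟩ i j).1 (by rw [e]; exact hv)
        push Not at b1 b2
        exact b3 (b1.symm.trans b2)
    intro v i j i' j' h1 h2 h4 h5
    obtain ⟨e, e1, e2, e3⟩ := key v i j h1 h2
    obtain ⟨f, f1, f2, f3⟩ := key v i' j' h4 h5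
    have := h3 v e f e1 f1 (by rw [get_code s e e1]; exact e3) (by rw [get_code s f f1]; exact f3)
    rw [get_code s e e1, get_code s f f1, e2, f2] at this
    exact (rp_eq s i i' i.isLt i'.isLt).2 this
  · intro h
    refine ⟨?_, ?_, ?_⟩
    · intro i hi
      rw [length_code] at hi
      rw [get_code s i hi]
      exact rp_le s i hi
    · intro i hi
      rw [length_code] at hi
      rw [get_code s i hi, get_code s _ (rp_lt s i hi)]
      exact rp_idem s i hi
    · intro v j j' hj hj' h1 h2
      rw [length_code] at hj hj'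
      rw [get_code s j hj] at h1 ⊢
      rw [get_code s j' hj'] at h2 ⊢
      have := h v ⟨rp s j, rp_lt s j hj⟩ ⟨j, hj⟩ ⟨rp s j', rp_lt s j' hj'⟩ ⟨j', hj'⟩
        (rp_rel s j hj) h1 (rp_rel s j' hj') h2
      have h3 := (rp_eq s _ _ (rp_lt s j hj) (rp_lt s j' hj')).1 this
      rwa [rp_idem s j hj, rp_idem s j' hj'] at h3

theorem code_surj (L : List ℕ) (hL : L.length = 16) (hS : Sem D L) :
    ∃ s : Setoid (Fin 16), code s = L := by
  refine ⟨Setoid.ker (fun i : Fin 16 => get L i), ?_⟩
  obtain ⟨h1, h2, _⟩ := hS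
  rw [hL] at h1 h2
  have key : L = mk L.length (rp (Setoid.ker (fun i : Fin 16 => get L i))) := by
    apply eq_mk
    intro i hi
    rw [hL] at hi
    apply le_antisymm
    · have h3 := rp_rel (Setoid.ker (fun i : Fin 16 => get L i)) i hi
      have h4 : get L (rp (Setoid.ker (fun i : Fin 16 => get L i)) i) = get L i := h3
      rw [← h4]
      exact h1 _ (rp_lt _ i hi)
    · apply rp_min _ i _ hi (lt_of_le_of_lt (h1 i hi) hi)
      exact h2 i hi
  rw [hL] at key
  exact key.symm

/-! ### Numbers of classes -/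

theorem classes_eq (s : Setoid (Fin 16)) :
    s.classes = (fun c : ℕ => {x : Fin 16 | rp s x = c}) ''
      ((Finset.range 16).filter (fun i => rp s i = i) : Finset ℕ) := by
  ext A
  rw [Set.mem_image]
  constructor
  · rintro ⟨y, rfl⟩
    refine ⟨rp s y, ?_, ?_⟩
    · rw [Finset.mem_coe, Finset.mem_filter, Finset.mem_range]
      exact ⟨rp_lt s y y.isLt, rp_idem s y y.isLt⟩
    · ext x
      simp only [Set.mem_ofPred_eq]
      exact (rp_eq s x y x.isLt y.isLt).symm
  · rintro ⟨c, hc, rfl⟩
    rw [Finset.mem_coe, Finset.mem_filter, Finset.mem_range] at hc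
    refine ⟨⟨c, hc.1⟩, ?_⟩
    ext x
    simp only [Set.mem_ofPred_eq]
    rw [show (s x ⟨c, hc.1⟩ ↔ rp s x = rp s c) from rp_eq s x c x.isLt hc.1, hc.2]

theorem injOn_cls (s : Setoid (Fin 16)) (A : Finset ℕ)
    (hA : ∀ i ∈ A, i < 16 ∧ rp s i = i) :
    Set.InjOn (fun c : ℕ => {x : Fin 16 | rp s x = c}) (A : Set ℕ) := by
  intro a ha b hb hab
  have h1 := hA a ha
  have h2 : (⟨a, h1.1⟩ : Fin 16) ∈ {x : Fin 16 | rp s x = a} := h1.2
  simp only at hab
  rw [hab] at h2
  have h3 : rp s a = b := h2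
  rw [← h3, h1.2]

theorem ncard_classes (s : Setoid (Fin 16)) : s.classes.ncard = numCl (code s) := by
  have h : (Finset.range 16).filter (fun i => rp s i = i) =
      (Finset.range 16).filter (fun i => get (code s) i = i) := by
    apply Finset.filter_congr
    intro i hi
    rw [Finset.mem_range] at hi
    rw [get_code s i hi]
  rw [classes_eq, Set.InjOn.ncard_image, Set.ncard_coe_finset, numCl, length_code, h]
  apply injOn_cls
  intro i hi
  rw [Finset.mem_filter, Finset.mem_range] at hi
  exact hi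

theorem ncard_big (s : Setoid (Fin 16)) :
    {c : Set (Fin 16) | c ∈ s.classes ∧ 2 ≤ c.ncard}.ncard = numBig (code s) := by
  have h : {c : Set (Fin 16) | c ∈ s.classes ∧ 2 ≤ c.ncard} =
      (fun c : ℕ => {x : Fin 16 | rp s x = c}) '' ((Finset.range 16).filter
        (fun i : ℕ => get (code s) i = i ∧ ∃ j : ℕ, j < 16 ∧ j ≠ i ∧ get (code s) j = i) :
          Finset ℕ) := by
    rw [classes_eq]
    ext A
    rw [Set.mem_image, Set.mem_ofPred_eq, Set.mem_image]
    constructor
    · rintro ⟨⟨c, hc, rfl⟩, hA⟩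
      rw [Finset.mem_coe, Finset.mem_filter, Finset.mem_range] at hc
      refine ⟨c, ?_, rfl⟩
      rw [Finset.mem_coe, Finset.mem_filter, Finset.mem_range]
      refine ⟨hc.1, by rw [get_code s c hc.1]; exact hc.2, ?_⟩
      obtain ⟨a, ha, b, hb, hab⟩ := (Set.one_lt_ncard (Set.toFinite _)).1 hA
      by_cases hac : (a : ℕ) = c
      · refine ⟨b, b.isLt, ?_, by rw [get_code s b b.isLt]; exact hb⟩
        intro hbc
        exact hab (Fin.ext (hac.trans hbc.symm))
      · exact ⟨a, a.isLt, hac, by rw [get_code s a a.isLt]; exact ha⟩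
    · rintro ⟨c, hc, rfl⟩
      rw [Finset.mem_coe, Finset.mem_filter, Finset.mem_range] at hc
      obtain ⟨c1, c2, j, j1, j2, j3⟩ := hc
      rw [get_code s c c1] at c2
      rw [get_code s j j1] at j3
      refine ⟨⟨c, ?_, rfl⟩, ?_⟩
      · rw [Finset.mem_coe, Finset.mem_filter, Finset.mem_range]
        exact ⟨c1, c2⟩
      · apply (Set.one_lt_ncard (Set.toFinite _)).2
        exact ⟨⟨c, c1⟩, c2, ⟨j, j1⟩, j3, fun h => j2 (by simpa using congrArg Fin.val h.symm)⟩
  rw [h, Set.InjOn.ncard_image, Set.ncard_coe_finset]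
  · unfold numBig
    rw [length_code]
  · apply injOn_cls
    intro i hi
    rw [Finset.mem_filter, Finset.mem_range] at hi
    exact ⟨hi.1, by rw [← get_code s i hi.1]; exact hi.2.1⟩

/-- the two trees -/
def treeT : SLTree 16 := mkTree goodT
/-- the two trees -/
def treeF : SLTree 16 := mkTree goodF

theorem common_eq (k : ℕ) : common treeT treeF k = cnt k cols 16 0 0 [] 0 := by
  have hlen : cols.length = 16 := rfl
  have hcs : ∀ i (h : i < cols.length) c, c < 16 →
      dcol cols[i] (28 * c) = D c (([] : List ℕ).length + i) := by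
    intro i hi c _
    unfold D
    rw [List.length_nil, zero_add, List.getD_eq_getElem _ _ hi]
  have hmem := mem_enum k D_self (fun c j hc hj => D_ne c hc j hj) cols [] [] 0
    (by rw [hlen]; simp) sem_nil rep_nil hcs
  have hnd := nodup_enum k D_self cols [] [] 0 (by rw [hlen]; simp) sem_nil rep_nil hcs
  have hl := length_enum k cols [] [] 0
  rw [hlen] at hl
  simp only [List.length_nil, Nat.mul_zero] at hl
  rw [← hl, common, ← Set.ncard_image_of_injective _ code_injective,
    ← List.toFinset_card_of_nodup hnd, ← Set.ncard_coe_finset]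
  congr 1
  ext L
  rw [Finset.mem_coe, List.mem_toFinset, hmem, Set.mem_image]
  constructor
  · rintro ⟨s, ⟨h1, h2, h3, h4⟩, rfl⟩
    refine ⟨code s, by rw [length_code, hlen], by simp, ?_, ?_, ?_⟩
    · rw [sem_code, ← nb_iff]
      exact ⟨(mem_parts goodT s).1 h1, (mem_parts goodF s).1 h2⟩
    · rw [← ncard_classes]; exact h3
    · rw [← ncard_big]; exact h4
  · rintro ⟨l, l1, l2, l3, l4, l5⟩
    have hL : L.length = 16 := by rw [l2, List.append_nil, l1, hlen]
    obtain ⟨s, rfl⟩ := code_surj L hL l3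
    rw [sem_code, ← nb_iff] at l3
    refine ⟨s, ⟨(mem_parts goodT s).2 l3.1, (mem_parts goodF s).2 l3.2, ?_, ?_⟩, rfl⟩
    · rw [ncard_classes]; exact l4
    · rw [ncard_big]; exact l5

end Pool.Agent.H304.TR
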