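import Pool.Agent.H304.TR.Enum
set_option autoImplicit false

/-!
Correctness of the counting program, continued: the codes and the states.
-/
namespace Pool.Agent.H304.TR

/-- the codes of partitions for which every vertex separates leaves of at most one class -/
def Sem (d : ℕ → ℕ → ℕ) (t : List ℕ) : Prop :=
  (∀ i, i < t.length → get t i ≤ i) ∧ (∀ i, i < t.length → get t (get t i) = get t i) ∧
  (∀ v j j', j < t.length → j' < t.length → (d (get t j) j).testBit v = true →
    (d (get t j') j').testBit v = true → get t j = get t j')

/-- the state `cl`, `occ` describes the code `t` -/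
structure Rep (d : ℕ → ℕ → ℕ) (t : List ℕ) (cl : List (ℕ × ℕ)) (occ : ℕ) : Prop where
  R1 : (cl.map Prod.fst).Nodup
  R2 : ∀ x, x ∈ cl.map Prod.fst ↔ ∃ c, x = 28 * c ∧ c < t.length ∧ get t c = c
  R3 : ∀ c S, (28 * c, S) ∈ cl → ∀ v, S.testBit v = true ↔
    ∃ j, j < t.length ∧ get t j = c ∧ (d c j).testBit v = true
  R4 : ∀ v, occ.testBit v = true ↔ ∃ j, j < t.length ∧ (d (get t j) j).testBit v = true

variable {d : ℕ → ℕ → ℕ}

theorem sem_nil : Sem d [] := by
  refine ⟨?_, ?_, ?_⟩
  · intro i hi; simp at hi
  · intro i hi; simp at hi
  · intro v j j' hj; simp at hj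

theorem rep_nil : Rep d [] [] 0 := by
  refine ⟨by simp, ?_, ?_, ?_⟩
  · intro x; simp
  · intro c S h; simp at h
  · intro v; simp

theorem sem_cons (x : ℕ) (t : List ℕ) (hd : d t.length t.length = 0) :
    Sem d (x :: t) ↔ Sem d t ∧ (x = t.length ∨ (x < t.length ∧ get t x = x ∧
      ∀ v, (d x t.length).testBit v = true → ∀ j, j < t.length →
        (d (get t j) j).testBit v = true → get t j = x)) := by
  constructor
  · rintro ⟨h1, h2, h3⟩
    have hm : t.length < (x :: t).length := by simp
    have hx : x ≤ t.length := by
      have := h1 t.length hm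
      rwa [get_self] at this
    refine ⟨⟨?_, ?_, ?_⟩, ?_⟩
    · intro i hi
      have := h1 i (by simp; omega)
      rwa [get_lt _ _ hi] at this
    · intro i hi
      have h := h2 i (by simp; omega)
      have h' := h1 i (by simp; omega)
      rw [get_lt _ _ hi] at h h'
      rwa [get_lt _ _ (by omega)] at h
    · intro v j j' hj hj' hv hv'
      have h := h3 v j j' (by simp; omega) (by simp; omega)
      rw [get_lt _ _ hj, get_lt _ _ hj'] at h
      exact h hv hv'
    · rcases Nat.lt_or_ge x t.length with hlt | hge
      · right
        refine ⟨hlt, ?_, ?_⟩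
        · have h := h2 t.length hm
          rw [get_self, get_lt _ _ hlt] at h
          exact h
        · intro v hv j hj hv'
          have h := h3 v t.length j hm (by simp; omega)
          rw [get_self, get_lt _ _ hj] at h
          exact (h hv hv').symm
      · left; omega
  · rintro ⟨⟨h1, h2, h3⟩, hx⟩
    refine ⟨?_, ?_, ?_⟩
    · intro i hi
      simp only [List.length_cons] at hi
      rcases Nat.lt_or_ge i t.length with h | h
      · rw [get_lt _ _ h]; exact h1 i h
      · have : i = t.length := by omega
        subst this
        rw [get_self]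
        rcases hx with hx | hx
        · omega
        · omega
    · intro i hi
      simp only [List.length_cons] at hi
      rcases Nat.lt_or_ge i t.length with h | h
      · have := h1 i h
        rw [get_lt _ _ h, get_lt _ _ (by omega)]
        exact h2 i h
      · have : i = t.length := by omega
        subst this
        rw [get_self]
        rcases hx with hx | hx
        · subst hx; rw [get_self]
        · rw [get_lt _ _ hx.1]; exact hx.2.1
    · intro v j j' hj hj' hv hv'
      simp only [List.length_cons] at hj hj'
      rcases Nat.lt_or_ge j t.length with h | h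
      · rcases Nat.lt_or_ge j' t.length with h' | h'
        · rw [get_lt _ _ h] at hv ⊢
          rw [get_lt _ _ h'] at hv' ⊢
          exact h3 v j j' h h' hv hv'
        · have : j' = t.length := by omega
          subst this
          rw [get_lt _ _ h] at hv ⊢
          rw [get_self] at hv' ⊢
          rcases hx with hx | hx
          · subst hx; rw [hd] at hv'; simp at hv'
          · exact hx.2.2 v hv' j h hv
      · have : j = t.length := by omega
        subst this
        rw [get_self] at hv ⊢
        rcases hx with hx | hx
        · subst hx; rw [hd] at hv; simp at hv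
        · rcases Nat.lt_or_ge j' t.length with h' | h'
          · rw [get_lt _ _ h'] at hv' ⊢
            exact (hx.2.2 v hv j' h' hv').symm
          · have : j' = t.length := by omega
            subst this
            rw [get_self]

theorem rep_new (t : List ℕ) (cl : List (ℕ × ℕ)) (occ : ℕ) (hd : d t.length t.length = 0)
    (hS : Sem d t) (hR : Rep d t cl occ) :
    Rep d (t.length :: t) ((28 * t.length, 0) :: cl) occ := by
  obtain ⟨s1, s2, s3⟩ := hS
  obtain ⟨R1, R2, R3, R4⟩ := hR
  refine ⟨?_, ?_, ?_, ?_⟩
  · rw [List.map_cons, List.nodup_cons]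
    refine ⟨?_, R1⟩
    intro h
    obtain ⟨c, h1, h2, _⟩ := (R2 _).1 h
    omega
  · intro x
    rw [List.map_cons, List.mem_cons, R2]
    constructor
    · rintro (h | ⟨c, h1, h2, h3⟩)
      · exact ⟨t.length, h, by simp, get_self _ _⟩
      · exact ⟨c, h1, by simp; omega, by rw [get_lt _ _ h2]; exact h3⟩
    · rintro ⟨c, h1, h2, h3⟩
      simp only [List.length_cons] at h2
      rcases Nat.lt_or_ge c t.length with h | h
      · right
        rw [get_lt _ _ h] at h3
        exact ⟨c, h1, h, h3⟩
      · left
        have : c = t.length := by omega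
        rw [h1, this]
  · intro c S hc v
    rw [List.mem_cons] at hc
    rcases hc with hc | hc
    · simp only [Prod.mk.injEq] at hc
      obtain ⟨h1, rfl⟩ := hc
      have : c = t.length := by omega
      subst this
      constructor
      · intro h; simp at h
      · rintro ⟨j, hj, h2, h3⟩
        simp only [List.length_cons] at hj
        rcases Nat.lt_or_ge j t.length with h | h
        · rw [get_lt _ _ h] at h2
          have := s1 j h
          omega
        · have : j = t.length := by omega
          subst this
          rw [hd] at h3
          simp at h3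
    · rw [R3 c S hc v]
      have hcm : 28 * c ∈ cl.map Prod.fst := List.mem_map.2 ⟨_, hc, rfl⟩
      obtain ⟨c', e1, e2, _⟩ := (R2 _).1 hcm
      have hcc : c = c' := by omega
      constructor
      · rintro ⟨j, h1, h2, h3⟩
        exact ⟨j, by simp; omega, by rw [get_lt _ _ h1]; exact h2, h3⟩
      · rintro ⟨j, hj, h2, h3⟩
        simp only [List.length_cons] at hj
        rcases Nat.lt_or_ge j t.length with h | h
        · rw [get_lt _ _ h] at h2
          exact ⟨j, h, h2, h3⟩
        · have : j = t.length := by omega
          subst this
          rw [get_self] at h2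
          omega
  · intro v
    rw [R4]
    constructor
    · rintro ⟨j, h1, h2⟩
      exact ⟨j, by simp; omega, by rw [get_lt _ _ h1]; exact h2⟩
    · rintro ⟨j, hj, h2⟩
      simp only [List.length_cons] at hj
      rcases Nat.lt_or_ge j t.length with h | h
      · rw [get_lt _ _ h] at h2
        exact ⟨j, h, h2⟩
      · have : j = t.length := by omega
        subst this
        rw [get_self, hd] at h2
        simp at h2

theorem rep_join (t : List ℕ) (l1 l2 : List (ℕ × ℕ)) (occ c S : ℕ)
    (hR : Rep d t (l1 ++ (28 * c, S) :: l2) occ) :
    Rep d (c :: t) (l1 ++ (28 * c, Nat.lor S (d c t.length)) :: l2)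
      (Nat.lor occ (d c t.length)) := by
  obtain ⟨R1, R2, R3, R4⟩ := hR
  have hcm : 28 * c ∈ (l1 ++ (28 * c, S) :: l2).map Prod.fst := by simp
  obtain ⟨c', e1, e2, e3⟩ := (R2 _).1 hcm
  have hcc : c' = c := by omega
  subst hcc
  have hmap : (l1 ++ (28 * c', Nat.lor S (d c' t.length)) :: l2).map Prod.fst =
      (l1 ++ (28 * c', S) :: l2).map Prod.fst := by simp
  refine ⟨?_, ?_, ?_, ?_⟩
  · rw [hmap]; exact R1
  · intro x
    rw [hmap, R2]
    constructor
    · rintro ⟨c, h1, h2, h3⟩
      exact ⟨c, h1, by simp; omega, by rw [get_lt _ _ h2]; exact h3⟩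
    · rintro ⟨c, h1, h2, h3⟩
      simp only [List.length_cons] at h2
      rcases Nat.lt_or_ge c t.length with h | h
      · rw [get_lt _ _ h] at h3
        exact ⟨c, h1, h, h3⟩
      · have : c = t.length := by omega
        subst this
        rw [get_self] at h3
        omega
  · intro c S' hc v
    rw [List.mem_append, List.mem_cons] at hc
    have hnd : 28 * c' ∉ l1.map Prod.fst ∧ 28 * c' ∉ l2.map Prod.fst := by
      rw [List.map_append, List.map_cons, List.nodup_append] at R1
      obtain ⟨_, r2, r3⟩ := R1
      rw [List.nodup_cons] at r2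
      refine ⟨?_, r2.1⟩
      intro h
      exact r3 _ h _ (by simp) rfl
    have hother : (28 * c, S') ∈ l1 ++ (28 * c', S) :: l2 → c ≠ c' →
        (S'.testBit v = true ↔ ∃ j, j < (c' :: t).length ∧ get (c' :: t) j = c ∧
          (d c j).testBit v = true) := by
      intro hmem hne
      rw [R3 c S' hmem v]
      constructor
      · rintro ⟨j, h1, h2, h3⟩
        exact ⟨j, by simp; omega, by rw [get_lt _ _ h1]; exact h2, h3⟩
      · rintro ⟨j, hj, h2, h3⟩
        simp only [List.length_cons] at hj
        rcases Nat.lt_or_ge j t.length with h | h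
        · rw [get_lt _ _ h] at h2
          exact ⟨j, h, h2, h3⟩
        · have : j = t.length := by omega
          subst this
          rw [get_self] at h2
          exact absurd h2.symm hne
    rcases hc with hc | hc | hc
    · refine hother (by simp [hc]) ?_
      rintro rfl
      exact hnd.1 (List.mem_map.2 ⟨_, hc, rfl⟩)
    · simp only [Prod.mk.injEq] at hc
      obtain ⟨h1, rfl⟩ := hc
      have hcc : c = c' := by omega
      subst hcc
      have h0 := R3 c S (by simp) v
      show (S ||| d c t.length).testBit v = true ↔ _
      rw [Nat.testBit_or, Bool.or_eq_true, h0]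
      constructor
      · rintro (⟨j, h1, h2, h3⟩ | h)
        · exact ⟨j, by simp; omega, by rw [get_lt _ _ h1]; exact h2, h3⟩
        · exact ⟨t.length, by simp, get_self _ _, h⟩
      · rintro ⟨j, hj, h2, h3⟩
        simp only [List.length_cons] at hj
        rcases Nat.lt_or_ge j t.length with h | h
        · rw [get_lt _ _ h] at h2
          exact Or.inl ⟨j, h, h2, h3⟩
        · have : j = t.length := by omega
          subst this
          exact Or.inr h3
    · refine hother (by simp [hc]) ?_
      rintro rfl
      exact hnd.2 (List.mem_map.2 ⟨_, hc, rfl⟩)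
  · intro v
    show (occ ||| d c' t.length).testBit v = true ↔ _
    rw [Nat.testBit_or, Bool.or_eq_true, R4]
    constructor
    · rintro (⟨j, h1, h2⟩ | h)
      · exact ⟨j, by simp; omega, by rw [get_lt _ _ h1]; exact h2⟩
      · exact ⟨t.length, by simp, by rw [get_self]; exact h⟩
    · rintro ⟨j, hj, h2⟩
      simp only [List.length_cons] at hj
      rcases Nat.lt_or_ge j t.length with h | h
      · rw [get_lt _ _ h] at h2
        exact Or.inl ⟨j, h, h2⟩
      · have : j = t.length := by omega
        subst this
        rw [get_self] at h2
        exact Or.inr h2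

theorem cond_iff (t : List ℕ) (cl : List (ℕ × ℕ)) (occ c S e : ℕ) (hS : Sem d t)
    (hR : Rep d t cl occ) (hc : (28 * c, S) ∈ cl) :
    Nat.land (Nat.land e occ) S = Nat.land e occ ↔
      ∀ v, e.testBit v = true → ∀ j, j < t.length →
        (d (get t j) j).testBit v = true → get t j = c := by
  obtain ⟨s1, s2, s3⟩ := hS
  obtain ⟨R1, R2, R3, R4⟩ := hR
  show (e &&& occ) &&& S = e &&& occ ↔ _
  constructor
  · intro h v hv j hj hv'
    have ho : occ.testBit v = true := (R4 v).2 ⟨j, hj, hv'⟩
    have h' : ((e &&& occ) &&& S).testBit v = (e &&& occ).testBit v := by rw [h]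
    rw [Nat.testBit_and, Nat.testBit_and, hv, ho] at h'
    have hSv : S.testBit v = true := by simpa using h'
    obtain ⟨j', h1, h2, h3⟩ := (R3 c S hc v).1 hSv
    rw [← h2]
    exact s3 v j j' hj h1 hv' (by rw [h2]; exact h3)
  · intro h
    apply Nat.eq_of_testBit_eq
    intro v
    rw [Nat.testBit_and, Nat.testBit_and]
    cases hv : e.testBit v with
    | false => simp
    | true =>
      cases ho : occ.testBit v with
      | false => simp
      | true =>
        obtain ⟨j, hj, hj'⟩ := (R4 v).1 ho
        have := h v hv j hj hj'
        have hSv : S.testBit v = true := (R3 c S hc v).2 ⟨j, hj, this, by rw [← this]; exact hj'⟩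
        simp [hSv]

end Pool.Agent.H304.TR
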