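import Pool.Agent.H304.TR.Final
import Pool.Agent.H304.TR.C10
import Pool.Agent.H304.TR.C11
import Pool.Agent.H304.TR.C12
set_option autoImplicit false

/-!
# The numbers of non-trivial common partitions of two trees need not be unimodal

`SLTree n` is a semilabelled binary tree of size `n` (the labels are `Fin n`), and `common T F k` is
the number `a_k(T,F)` of the partitions of the labels into exactly `k` classes, at least two of
which have at least two elements, which arise from `T` by deleting edges and also arise from `F` by
deleting edges.
-/
namespace Pool.Agent.H304.TR.SixteenLeaves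

open Pool.Agent.H304.TR

/-- There are two semilabelled binary trees of size 16 with `a₁₀ = 1834`, `a₁₁ = 1818`,
`a₁₂ = 1839`. So neither unimodality (Q1) nor log-concavity (Q2) holds for all pairs of trees. -/
theorem result :
    (∃ T F : SLTree 16, common T F 10 = 1834 ∧ common T F 11 = 1818 ∧ common T F 12 = 1839) ∧
    (¬ ∀ (n : ℕ) (T F : SLTree n), IsUnimodal n (common T F)) ∧
    (¬ ∀ (n : ℕ) (T F : SLTree n), IsLogConcave n (common T F)) := by
  have h10 : common treeT treeF 10 = 1834 := by rw [common_eq, c10]
  have h11 : common treeT treeF 11 = 1818 := by rw [common_eq, c11]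
  have h12 : common treeT treeF 12 = 1839 := by rw [common_eq, c12]
  refine ⟨⟨treeT, treeF, h10, h11, h12⟩, ?_, ?_⟩
  · intro h
    obtain ⟨m, h1, h2⟩ := h 16 treeT treeF
    rcases Nat.lt_or_ge 11 m with hm | hm
    · have := h1 10 (by norm_num) (by omega) (by norm_num)
      rw [h10, h11] at this
      omega
    · have := h2 11 (by norm_num) hm (by norm_num)
      rw [h11, h12] at this
      omega
  · intro h
    have := h 16 treeT treeF 11 (by norm_num) (by norm_num)
    norm_num [h10, h11, h12] at this

end Pool.Agent.H304.TR.SixteenLeaves
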