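import Mathlib
set_option autoImplicit false

/-!
Semilabelled binary trees, the partitions of the leaf labels which they induce, and a description
of these partitions by a table of directions.
-/
namespace Pool.Agent.H304.TR

/-- A semilabelled binary tree of size `n`: a finite tree, all of whose vertices have degree `1`
or `3`, whose vertices of degree `1` are labelled bijectively by `Fin n`. -/
structure SLTree (n : ℕ) where
  /-- the vertices -/
  V : Type
  finite : Finite V
  /-- the tree -/
  G : SimpleGraph V
  isTree : G.IsTree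
  deg : ∀ v : V, (G.neighborSet v).ncard = 1 ∨ (G.neighborSet v).ncard = 3
  /-- the leaf with a given label -/
  leaf : Fin n → V
  leaf_injective : Function.Injective leaf
  leaf_iff : ∀ v : V, (G.neighborSet v).ncard = 1 ↔ ∃ i, leaf i = v

/-- The partition (as an equivalence relation) of the labels obtained by deleting the edges in `E`:
two labels are equivalent when their leaves lie in the same component. -/
def SLTree.cut {n : ℕ} (T : SLTree n) (E : Set (Sym2 T.V)) : Setoid (Fin n) where
  r i j := (T.G.deleteEdges E).Reachable (T.leaf i) (T.leaf j)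
  iseqv := ⟨fun _ => SimpleGraph.Reachable.refl _, fun h => h.symm, fun h h' => h.trans h'⟩

/-- The set of all partitions obtained by deleting edges. -/
def SLTree.parts {n : ℕ} (T : SLTree n) : Set (Setoid (Fin n)) :=
  {s | ∃ E : Set (Sym2 T.V), E ⊆ T.G.edgeSet ∧ T.cut E = s}

/-- The number `a_k(T,F)` of common partitions with exactly `k` classes, at least two of which
have at least two elements. -/
noncomputable def common {n : ℕ} (T F : SLTree n) (k : ℕ) : ℕ :=
  {s : Setoid (Fin n) | s ∈ T.parts ∧ s ∈ F.parts ∧ s.classes.ncard = k ∧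
    2 ≤ {c : Set (Fin n) | c ∈ s.classes ∧ 2 ≤ c.ncard}.ncard}.ncard

/-- `a_1 ≤ … ≤ a_m ≥ a_{m+1} ≥ … ≥ a_n` for some `m`. -/
def IsUnimodal (n : ℕ) (a : ℕ → ℕ) : Prop :=
  ∃ m, (∀ k, 1 ≤ k → k < m → k < n → a k ≤ a (k + 1)) ∧
    (∀ k, 1 ≤ k → m ≤ k → k < n → a (k + 1) ≤ a k)

/-- `a_k² ≥ a_{k-1} a_{k+1}` for `1 < k < n`. -/
def IsLogConcave (n : ℕ) (a : ℕ → ℕ) : Prop :=
  ∀ k, 1 < k → k < n → a (k - 1) * a (k + 1) ≤ a k ^ 2

/-! ### The table of directions -/

section Table

variable {V : Type} {N : ℕ} {G : SimpleGraph V} {leaf : Fin N → V} {nx : V → V → V}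

/-- the condition that every vertex separates labels of at most one class -/
def NC (leaf : Fin N → V) (nx : V → V → V) (s : Setoid (Fin N)) : Prop :=
  ∀ u i j i' j', s i j → nx u (leaf i) ≠ nx u (leaf j) → s i' j' →
    nx u (leaf i') ≠ nx u (leaf j') → s i i'

theorem reach_split (h2 : ∀ u x y, G.Adj x y → x ≠ u → y ≠ u → nx u x = nx u y)
    (E : Set (Sym2 V)) (u x y : V) (h : (G.deleteEdges E).Reachable x y)
    (hxy : nx u x ≠ nx u y) : (G.deleteEdges E).Reachable x u := by
  obtain ⟨p⟩ := h
  induction p with
  | nil => exact absurd rfl hxy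
  | @cons x z y hadj p ih =>
    by_cases hx : x = u
    · subst hx; exact SimpleGraph.Reachable.refl _
    · by_cases hz : z = u
      · subst hz; exact hadj.reachable
      · have h' : G.Adj x z := by
          rw [SimpleGraph.deleteEdges_adj] at hadj
          exact hadj.1
        have := h2 u x z h' hx hz
        rw [this] at hxy
        exact hadj.reachable.trans (ih hxy)

theorem nc_of_cut (h2 : ∀ u x y, G.Adj x y → x ≠ u → y ≠ u → nx u x = nx u y)
    (E : Set (Sym2 V)) (s : Setoid (Fin N))
    (hs : ∀ i j, s i j ↔ (G.deleteEdges E).Reachable (leaf i) (leaf j)) : NC leaf nx s := by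
  intro u i j i' j' hij hu hij' hu'
  rw [hs] at hij hij' ⊢
  exact (reach_split h2 E u _ _ hij hu).trans (reach_split h2 E u _ _ hij' hu').symm

/-- the edges which are kept -/
def keep (G : SimpleGraph V) (leaf : Fin N → V) (nx : V → V → V) (s : Setoid (Fin N))
    (u w : V) : Prop :=
  G.Adj u w ∧ ∃ i j, s i j ∧ nx w (leaf i) = u ∧ nx u (leaf j) = w

/-- the edges which are deleted -/
def drop (G : SimpleGraph V) (leaf : Fin N → V) (nx : V → V → V) (s : Setoid (Fin N)) :
    Set (Sym2 V) :=
  {e | e ∈ G.edgeSet ∧ ∀ u w, e = s(u, w) → ¬ keep G leaf nx s u w}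

theorem keep_symm {s : Setoid (Fin N)} {u w : V} (h : keep G leaf nx s u w) :
    keep G leaf nx s w u := by
  obtain ⟨ha, i, j, hij, h1, h2⟩ := h
  exact ⟨ha.symm, j, i, s.symm hij, h2, h1⟩

theorem adj_drop {s : Setoid (Fin N)} {u w : V} :
    (G.deleteEdges (drop G leaf nx s)).Adj u w ↔ keep G leaf nx s u w := by
  rw [SimpleGraph.deleteEdges_adj]
  constructor
  · rintro ⟨ha, hn⟩
    by_contra hk
    apply hn
    refine ⟨ha, ?_⟩
    intro u' w' he hk'
    rw [Sym2.eq_iff] at he
    rcases he with ⟨rfl, rfl⟩ | ⟨rfl, rfl⟩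
    · exact hk hk'
    · exact hk (keep_symm hk')
  · intro hk
    exact ⟨hk.1, fun hn => hn.2 u w rfl hk⟩

theorem cut_of_nc
    (h1 : ∀ u x, u ≠ x → G.Adj u (nx u x))
    (h3 : ∀ u w x, G.Adj u w → (nx u x = w ↔ nx w x ≠ u))
    (h4 : ∀ u x, ∃ k : ℕ, (fun y => nx y x)^[k] u = x)
    (h5 : ∀ u, nx u u = u)
    (h7 : ∀ j x y, x ≠ leaf j → y ≠ leaf j → nx (leaf j) x = nx (leaf j) y)
    (hinj : Function.Injective leaf)
    (s : Setoid (Fin N)) (hs : NC leaf nx s) (i j : Fin N) :
    s i j ↔ (G.deleteEdges (drop G leaf nx s)).Reachable (leaf i) (leaf j) := by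
  constructor
  · intro hij
    have key : ∀ (k : ℕ) (u : V), (fun y => nx y (leaf j))^[k] u = leaf j →
        (u = leaf j ∨ nx u (leaf i) ≠ nx u (leaf j)) →
        (G.deleteEdges (drop G leaf nx s)).Reachable u (leaf j) := by
      intro k
      induction k with
      | zero =>
        intro u hu _
        simp only [Function.iterate_zero, id_eq] at hu
        subst hu
        exact SimpleGraph.Reachable.refl _
      | succ k ih =>
        intro u hu hinv
        by_cases huj : u = leaf j
        · subst huj; exact SimpleGraph.Reachable.refl _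
        · have hne : nx u (leaf i) ≠ nx u (leaf j) := hinv.resolve_left huj
          have hadj := h1 u (leaf j) huj
          have e1 : nx (nx u (leaf j)) (leaf i) = u := by
            by_contra hc
            exact hne ((h3 u _ (leaf i) hadj).2 hc)
          have e2 : nx (nx u (leaf j)) (leaf j) ≠ u := (h3 u _ (leaf j) hadj).1 rfl
          have hk : keep G leaf nx s u (nx u (leaf j)) := ⟨hadj, i, j, hij, e1, rfl⟩
          have hr := ih (nx u (leaf j)) (by simpa [Function.iterate_succ] using hu)
            (Or.inr (by rw [e1]; exact e2.symm))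
          exact (adj_drop.2 hk).reachable.trans hr
    obtain ⟨k, hk⟩ := h4 (leaf i) (leaf j)
    apply key k (leaf i) hk
    by_cases hij' : i = j
    · left; rw [hij']
    · right
      rw [h5]
      exact (h1 (leaf i) (leaf j) (fun h => hij' (hinj h))).ne
  · intro hr
    have cover : ∀ x, (G.deleteEdges (drop G leaf nx s)).Reachable (leaf i) x →
        ((∃ j, s i j ∧ x = leaf j) ∨ (∃ a b, s i a ∧ s i b ∧ nx x (leaf a) ≠ nx x (leaf b))) := by
      intro x hx
      rw [SimpleGraph.reachable_iff_reflTransGen] at hx
      induction hx with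
      | refl => left; exact ⟨i, s.refl i, rfl⟩
      | @tail u w _ hadj ih =>
        rw [adj_drop] at hadj
        obtain ⟨ha, a, b, hab, e1, e2⟩ := hadj
        have n1 : nx u (leaf a) ≠ w := by
          intro hc
          exact (h3 u w (leaf a) ha).1 hc e1
        have n2 : nx w (leaf b) ≠ u := (h3 u w (leaf b) ha).1 e2
        have hu : nx u (leaf a) ≠ nx u (leaf b) := by rw [e2]; exact n1
        have hia : s i a := by
          rcases ih with ⟨j', hij', rfl⟩ | ⟨a', b', ha', hb', hne⟩
          · by_cases haj : a = j'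
            · subst haj; exact hij'
            · by_cases hbj : b = j'
              · subst hbj; exact s.trans hij' (s.symm hab)
              · exact absurd (h7 j' _ _ (fun h => haj (hinj h)) (fun h => hbj (hinj h))) hu
          · exact s.trans ha' (hs u a' b' a b (s.trans (s.symm ha') hb') hne hab hu)
        right
        exact ⟨a, b, hia, s.trans hia hab, by rw [e1]; exact n2.symm⟩
    rcases cover _ hr with ⟨j', hij', he⟩ | ⟨a, b, ha, hb, hne⟩
    · rw [hinj he]; exact hij'
    · by_cases haj : a = j
      · subst haj; exact ha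
      · by_cases hbj : b = j
        · subst hbj; exact hb
        · exact absurd (h7 j _ _ (fun h => haj (hinj h)) (fun h => hbj (hinj h))) hne

end Table

end Pool.Agent.H304.TR
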